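import Pool.Agent.Lib.PolyTime.Lib
import Pool.Agent.Lib.PolyTime.ToTM2

/-!
# Complete sets for RE and isomorphisms with a fixed polynomial bound

There are sets `C 0, C 1, ...` of binary words, complete for the recursively enumerable sets under
polynomial-time many-one reductions, such that no injective `h` with `|h(x)| ≤ |x|^k + k` maps
`C i` into `C j` if `1 ≤ i` and `i k < j`.

Proof. `K` is the set of all `1^n 0 x` with `x` in the domain of the `n`-th partial recursive
function, and `C j` is the set of all `1^(|x|^j) 0 x` with `x` in `K`. They are complete. If `c`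
codes a total function then `1^c 0 x` is in `K` for all `x` of length `m`; for large `m` their
images in `C j` have length less than `m^j`, so they are given by words of length less than `m`.
-/

set_option autoImplicit false

namespace Pool.Agent.Results.MP_e1120e_lc.FixedPolynomialBound

open Pool.Agent.Lib.PT Encodable Denumerable

/-- `f` is computable in polynomial time (multi-stack Turing machines of Mathlib). -/
def PTime (f : List Bool → List Bool) : Prop :=
  Nonempty (Turing.TM2ComputableInPolyTime (fun x : List Bool => x) (fun x : List Bool => x) f)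

/-- `A ≤ B` by a polynomial-time many-one reduction. -/
def Red (A B : Set (List Bool)) : Prop := ∃ f, PTime f ∧ ∀ x, x ∈ A ↔ f x ∈ B

/-- `C` is m-complete for RE. -/
def Complete (C : Set (List Bool)) : Prop :=
  REPred (fun x => x ∈ C) ∧ ∀ A : Set (List Bool), REPred (fun x => x ∈ A) → Red A C

/-- the number of ones at the beginning -/
def ones (w : List Bool) : ℕ := w.findIdx fun b => !b

/-- the word without the ones at the beginning and the bit after them -/
def rest (w : List Bool) : List Bool := List.tail^[ones w + 1] w

/-- `1^n 0 x` -/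
def put (n : ℕ) (x : List Bool) : List Bool := List.replicate n true ++ false :: x

theorem ones_put (n : ℕ) (x : List Bool) : ones (put n x) = n := by
  unfold ones put
  induction n with
  | zero =>
    rw [List.replicate_zero, List.nil_append, List.findIdx_cons]
    simp
  | succ n ih =>
    rw [List.replicate_succ, List.cons_append, List.findIdx_cons, ih]
    simp

theorem rest_put (n : ℕ) (x : List Bool) : rest (put n x) = x := by
  unfold rest
  rw [ones_put]
  unfold put
  induction n with
  | zero => simp
  | succ n ih =>
    rw [List.replicate_succ, List.cons_append, Function.iterate_succ_apply, List.tail_cons]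
    exact ih

theorem put_rest (w : List Bool) (h : ones w < w.length) : put (ones w) (rest w) = w := by
  induction w with
  | nil => simp at h
  | cons b w ih =>
    cases b with
    | false =>
      have h1 : ones (false :: w) = 0 := by
        unfold ones
        rw [List.findIdx_cons]
        simp
      unfold rest
      rw [h1]
      unfold put
      simp
    | true =>
      have h1 : ones (true :: w) = ones w + 1 := by
        unfold ones
        rw [List.findIdx_cons]
        simp
      rw [h1, List.length_cons] at h
      have h2 := ih (by omega)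
      have h3 : rest (true :: w) = rest w := by
        unfold rest
        rw [h1, Function.iterate_succ_apply, List.tail_cons]
      rw [h3, h1]
      unfold put at h2 ⊢
      rw [List.replicate_succ, List.cons_append, h2]

theorem length_put (n : ℕ) (x : List Bool) : (put n x).length = n + (x.length + 1) := by
  unfold put
  simp

/-- the universal function -/
def U (w : List Bool) : Part ℕ :=
  Nat.Partrec.Code.eval (ofNat Nat.Partrec.Code (ones w)) (encode (rest w))

theorem prim_ones : Primrec ones :=
  Primrec.list_findIdx Primrec.id (Primrec.not.comp Primrec.snd).to₂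

theorem prim_rest : Primrec rest :=
  Primrec.nat_iterate (Primrec.succ.comp prim_ones) Primrec.id (Primrec.list_tail.comp Primrec.snd).to₂

theorem partrec_U : Partrec U :=
  Nat.Partrec.Code.eval_part.comp ((Primrec.ofNat Nat.Partrec.Code).comp prim_ones).to_comp
    (Primrec.encode.comp prim_rest).to_comp

/-- the dense complete set -/
def K : Set (List Bool) := {w | (U w).Dom}

theorem code_of_re {A : Set (List Bool)} (hA : REPred (fun x => x ∈ A)) :
    ∃ c : Nat.Partrec.Code, ∀ x : List Bool, x ∈ A ↔ (c.eval (encode x)).Dom := by
  obtain ⟨c, hc⟩ := Nat.Partrec.Code.exists_code.1 hA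
  refine ⟨c, fun x => ?_⟩
  rw [hc]
  simp [Part.assert]

theorem mem_K_put (c : Nat.Partrec.Code) (x : List Bool) :
    put (encode c) x ∈ K ↔ (c.eval (encode x)).Dom := by
  show (U (put (encode c) x)).Dom ↔ _
  unfold U
  rw [ones_put, rest_put, ofNat_encode]

theorem ptime_of {f : List Bool → List Bool} (h : PolyTime f) : PTime f :=
  Pool.Agent.Lib.PT.ToTM2.polyTime_toTM2 f h

theorem poly_put (n : ℕ) : PolyTime (put n) :=
  (PolyTime.const (List.replicate n true)).append ((PolyTime.const false).cons PolyTime.id)

theorem complete_K : Complete K := by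
  refine ⟨partrec_U.dom_re, ?_⟩
  intro A hA
  obtain ⟨c, hc⟩ := code_of_re hA
  exact ⟨put (encode c), ptime_of (poly_put _), fun x => (hc x).trans (mem_K_put c x).symm⟩

/-- `1^(|x|^j) 0 x` -/
def pad (j : ℕ) (x : List Bool) : List Bool := put (x.length ^ j) x

theorem flat_rep (x : List Bool) (m : ℕ) :
    x.flatMap (fun _ => List.replicate m true) = List.replicate (m * x.length) true := by
  induction x with
  | nil => simp
  | cons b x ih =>
    rw [List.flatMap_cons, ih, List.length_cons, Nat.mul_succ, Nat.add_comm, List.replicate_add]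

theorem poly_rep (j : ℕ) : PolyTime (fun x : List Bool => List.replicate (x.length ^ j) true) := by
  induction j with
  | zero => exact PolyTime.const [true]
  | succ j ih =>
    refine (PolyTime.flatMap (f := fun (x : List Bool) (_ : Bool) => List.replicate (x.length ^ j) true)
      PolyTime.id (ih.comp PolyTime.id.fst)).congr fun x => ?_
    rw [flat_rep, pow_succ]

theorem poly_pad (j : ℕ) : PolyTime (pad j) :=
  (poly_rep j).append ((PolyTime.const false).cons PolyTime.id)

theorem prim_pow {f : List Bool → ℕ} (hf : Primrec f) (j : ℕ) : Primrec (fun w => f w ^ j) := by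
  induction j with
  | zero => simpa using Primrec.const 1
  | succ j ih =>
    simp only [pow_succ]
    exact Primrec.nat_mul.comp ih hf

/-- the test whether the word is a padded word -/
def test (j : ℕ) (w : List Bool) : Bool :=
  (ones w == (rest w).length ^ j) && (w.length == (rest w).length ^ j + ((rest w).length + 1))

theorem prim_test (j : ℕ) : Primrec (test j) := by
  have h1 : Primrec fun w => (rest w).length ^ j := prim_pow (Primrec.list_length.comp prim_rest) j
  exact Primrec.and.comp (Primrec.beq.comp prim_ones h1)
    (Primrec.beq.comp Primrec.list_length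
      (Primrec.nat_add.comp h1 (Primrec.succ.comp (Primrec.list_length.comp prim_rest))))

theorem test_iff (j : ℕ) (w : List Bool) : test j w = true ↔ w = pad j (rest w) := by
  unfold test
  rw [Bool.and_eq_true, beq_iff_eq, beq_iff_eq]
  constructor
  · rintro ⟨h1, h2⟩
    have h3 := put_rest w (by omega)
    unfold pad
    rw [← h1]
    exact h3.symm
  · intro h
    constructor
    · have h1 : ones w = ones (pad j (rest w)) := by rw [← h]
      rw [h1]
      exact ones_put _ _
    · have h1 : w.length = (pad j (rest w)).length := by rw [← h]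
      rw [h1]
      exact length_put _ _

/-- the sparse complete set -/
def S (j : ℕ) : Set (List Bool) := {w | (cond (test j w) (U (rest w)) Part.none).Dom}

theorem mem_S {j : ℕ} {w : List Bool} : w ∈ S j ↔ w = pad j (rest w) ∧ rest w ∈ K := by
  show (cond (test j w) (U (rest w)) Part.none).Dom ↔ _
  rw [← test_iff]
  cases h : test j w with
  | true => simp [K]
  | false => simp

theorem complete_S (j : ℕ) : Complete (S j) := by
  constructor
  · exact (Partrec.cond (prim_test j).to_comp (partrec_U.comp prim_rest.to_comp) Partrec.none).dom_re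
  · intro A hA
    obtain ⟨c, hc⟩ := code_of_re hA
    refine ⟨fun x => pad j (put (encode c) x), ptime_of ((poly_pad j).comp (poly_put _)), fun x => ?_⟩
    rw [mem_S]
    have h1 : rest (pad j (put (encode c) x)) = put (encode c) x := rest_put _ _
    rw [h1, mem_K_put]
    exact ⟨fun h => ⟨rfl, (hc x).1 h⟩, fun h => (hc x).2 h.2⟩

theorem sum_two_pow (m : ℕ) : ∑ j ∈ Finset.range m, 2 ^ j < 2 ^ m := by
  induction m with
  | zero => simp
  | succ m ih =>
    rw [Finset.sum_range_succ, pow_succ]
    omega

theorem pad_mem {j : ℕ} {x : List Bool} (h : x ∈ K) : pad j x ∈ S j := by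
  rw [mem_S]
  have h1 : rest (pad j x) = x := rest_put _ _
  rw [h1]
  exact ⟨rfl, h⟩

/-- **No fixed polynomial bound suffices for isomorphisms between complete sets.** -/
theorem result : ∃ C : ℕ → Set (List Bool), (∀ j, Complete (C j)) ∧
    ∀ i j k : ℕ, 1 ≤ i → i * k < j → ∀ h : List Bool → List Bool, Function.Injective h →
      (∀ x, (h x).length ≤ x.length ^ k + k) → ∃ x ∈ C i, h x ∉ C j := by
  refine ⟨S, complete_S, ?_⟩
  intro i j k hi hij h hinj hlen
  by_contra hcon
  push Not at hcon
  obtain ⟨c, hc⟩ : ∃ c : ℕ, c = encode Nat.Partrec.Code.zero := ⟨_, rfl⟩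
  have hK : ∀ x, pad i (put c x) ∈ S i := by
    intro x
    apply pad_mem
    rw [hc, mem_K_put]
    simp only [Nat.Partrec.Code.eval]
    exact trivial
  obtain ⟨a, ha⟩ : ∃ a : ℕ, a = 3 ^ k * 2 ^ (i * k) := ⟨_, rfl⟩
  obtain ⟨m, hm⟩ : ∃ m : ℕ, m = c + 1 + a + k := ⟨_, rfl⟩
  have hm1 : 1 ≤ m := by omega
  have hbig : ((c + (m + 1)) ^ i + (c + (m + 1) + 1)) ^ k + k < m ^ j := by
    have e1 : c + (m + 1) ≤ (c + (m + 1)) ^ i := Nat.le_self_pow (by omega) _
    have e2 : (c + (m + 1)) ^ i + (c + (m + 1) + 1) ≤ 3 * (c + (m + 1)) ^ i := by omega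
    have e3 : (c + (m + 1)) ^ i ≤ (2 * m) ^ i := Nat.pow_le_pow_left (by omega) i
    have e4 : ((c + (m + 1)) ^ i + (c + (m + 1) + 1)) ^ k ≤ (3 * (2 * m) ^ i) ^ k :=
      Nat.pow_le_pow_left (e2.trans (Nat.mul_le_mul_left _ e3)) k
    have e5 : (3 * (2 * m) ^ i) ^ k = a * m ^ (i * k) := by
      rw [ha, mul_pow, ← pow_mul, mul_pow, Nat.mul_assoc]
    have e6 : 1 ≤ m ^ (i * k) := Nat.one_le_pow _ _ hm1
    have e7 : m ^ (i * k + 1) ≤ m ^ j := Nat.pow_le_pow_right hm1 hij
    have e8 : (a + k + 1) * m ^ (i * k) ≤ m * m ^ (i * k) := Nat.mul_le_mul_right _ (by omega)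
    rw [pow_succ, Nat.mul_comm (m ^ (i * k)) m] at e7
    rw [e5] at e4
    have e9 : k ≤ k * m ^ (i * k) := Nat.le_mul_of_pos_right _ e6
    have e10 : (a + k + 1) * m ^ (i * k) = a * m ^ (i * k) + k * m ^ (i * k) + m ^ (i * k) := by ring
    omega
  have hy : ∀ v : List.Vector Bool m, (rest (h (pad i (put c v.1)))).length < m := by
    intro v
    have h1 := hlen (pad i (put c v.1))
    have h0 : (pad i (put c v.1)).length = (c + (m + 1)) ^ i + (c + (m + 1) + 1) := by
      unfold pad
      rw [length_put, length_put, v.2]
    rw [h0] at h1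
    have h2 := (mem_S.1 (hcon _ (hK v.1))).1
    have h3 : (rest (h (pad i (put c v.1)))).length ^ j ≤ (h (pad i (put c v.1))).length := by
      obtain ⟨w, hw⟩ : ∃ w, w = h (pad i (put c v.1)) := ⟨_, rfl⟩
      rw [← hw] at h2 ⊢
      have h6 : w.length = (pad j (rest w)).length := by rw [← h2]
      rw [h6]
      unfold pad
      rw [length_put]
      omega
    by_contra h4
    have h5 := Nat.pow_le_pow_left (not_lt.1 h4) j
    omega
  have hcard := Fintype.card_le_of_injective
    (fun v : List.Vector Bool m =>
      (⟨⟨(rest (h (pad i (put c v.1)))).length, hy v⟩, ⟨rest (h (pad i (put c v.1))), rfl⟩⟩ :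
        Σ j : Fin m, List.Vector Bool j)) (by
    intro v v' hv
    have h1 : rest (h (pad i (put c v.1))) = rest (h (pad i (put c v'.1))) :=
      congrArg (fun s : Σ j : Fin m, List.Vector Bool j => s.2.1) hv
    have h2 : h (pad i (put c v.1)) = h (pad i (put c v'.1)) := by
      rw [(mem_S.1 (hcon _ (hK v.1))).1, (mem_S.1 (hcon _ (hK v'.1))).1, h1]
    have h3 := congrArg rest (hinj h2)
    unfold pad at h3
    rw [rest_put, rest_put] at h3
    have h4 := congrArg rest h3
    rw [rest_put, rest_put] at h4
    exact Subtype.ext h4)
  rw [Fintype.card_sigma, card_vector] at hcard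
  simp only [card_vector, Fintype.card_bool] at hcard
  rw [Fin.sum_univ_eq_sum_range (fun j => 2 ^ j) m] at hcard
  have := sum_two_pow m
  omega

end Pool.Agent.Results.MP_e1120e_lc.FixedPolynomialBound
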